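import Mathlib
import Pool.Agent.W207.PR.A0

/-! # Decay of the cosine transforms of test functions -/

open Filter Topology Set MeasureTheory
open scoped BigOperators FourierTransform ContDiff SchwartzMap

namespace Pool.Agent.W578.PR

open W207.PR

/-- a smooth compactly supported real function as a complex Schwartz function -/
theorem exists_schwartz (f : ℝ → ℝ) (hf : ∀ n : ℕ, ContDiff ℝ n f)
    (hs : ∃ μ : ℝ, ∀ x, μ ≤ |x| → f x = 0) : ∃ F : 𝓢(ℝ, ℂ), ∀ x, F x = (f x : ℂ) := by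
  obtain ⟨μ, hμ⟩ := hs
  have h1 : ContDiff ℝ ∞ f := contDiff_infty.2 hf
  have h2 : HasCompactSupport f := by
    refine HasCompactSupport.intro (isCompact_Icc (a := -μ) (b := μ)) ?_
    intro x hx
    apply hμ
    by_contra h
    push Not at h
    exact hx (abs_le.1 h.le)
  have h3 : HasCompactSupport (fun x => (f x : ℂ)) := h2.comp_left (g := fun y : ℝ => (y : ℂ))
    (by simp)
  exact ⟨h3.toSchwartzMap (Complex.ofRealCLM.contDiff.comp h1), fun x => rfl⟩

theorem schwartz_decay (F : 𝓢(ℝ, ℂ)) (n : ℕ) :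
    ∃ K : ℝ, 0 < K ∧ ∀ x, ‖F x‖ * (1 + |x|) ^ n ≤ K := by
  have h := fun x => SchwartzMap.one_add_le_sup_seminorm_apply (𝕜 := ℝ) (m := (n, 0)) (k := n)
    (n := 0) le_rfl le_rfl F x
  refine ⟨max 1 (2 ^ ((n, 0) : ℕ × ℕ).1 * (Finset.Iic ((n, 0) : ℕ × ℕ)).sup
    (fun m => SchwartzMap.seminorm ℝ m.1 m.2) F), lt_max_of_lt_left one_pos, fun x => ?_⟩
  have h1 := h x
  rw [norm_iteratedFDeriv_zero, Real.norm_eq_abs, mul_comm] at h1
  exact h1.trans (le_max_right _ _)

theorem int_four (F : 𝓢(ℝ, ℂ)) (x : ℝ) :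
    Integrable (fun v : ℝ => Complex.exp (↑(-2 * Real.pi * v * x) * Complex.I) • F v) := by
  have hF : Integrable (F : ℝ → ℂ) := F.integrable
  have hc : Continuous (fun v : ℝ => Complex.exp (↑(-2 * Real.pi * v * x) * Complex.I) • F v) := by
    have := F.continuous
    fun_prop
  refine hF.norm.mono' hc.aestronglyMeasurable (Filter.Eventually.of_forall fun v => ?_)
  rw [norm_smul, Complex.norm_exp_ofReal_mul_I, one_mul]

/-- the real part of the Fourier transform -/
theorem re_fourier (F : 𝓢(ℝ, ℂ)) (f : ℝ → ℝ) (hF : ∀ x, F x = (f x : ℂ)) (x : ℝ) :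
    (𝓕 (F : ℝ → ℂ) x).re = ∫ v : ℝ, f v * Real.cos (2 * Real.pi * v * x) := by
  rw [Real.fourier_real_eq_integral_exp_smul]
  have hint : Integrable (fun v : ℝ => Complex.exp (↑(-2 * Real.pi * v * x) * Complex.I) • F v) := by
    exact int_four F x
  have h := Complex.reCLM.integral_comp_comm hint
  simp only [Complex.reCLM_apply] at h
  rw [← h]
  refine integral_congr_ae (Filter.Eventually.of_forall fun v => ?_)
  simp only [hF v, smul_eq_mul, Complex.re_mul_ofReal, Complex.exp_ofReal_mul_I_re]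
  rw [mul_comm]
  congr 1
  rw [← Real.cos_neg]
  congr 1
  ring

/-- the imaginary part of the Fourier transform -/
theorem im_fourier (F : 𝓢(ℝ, ℂ)) (f : ℝ → ℝ) (hF : ∀ x, F x = (f x : ℂ)) (x : ℝ) :
    (𝓕 (F : ℝ → ℂ) x).im = -∫ v : ℝ, f v * Real.sin (2 * Real.pi * v * x) := by
  rw [Real.fourier_real_eq_integral_exp_smul]
  have hint : Integrable (fun v : ℝ => Complex.exp (↑(-2 * Real.pi * v * x) * Complex.I) • F v) := by
    exact int_four F x
  have h := Complex.imCLM.integral_comp_comm hint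
  simp only [Complex.imCLM_apply] at h
  rw [← h, ← integral_neg]
  refine integral_congr_ae (Filter.Eventually.of_forall fun v => ?_)
  simp only [hF v, smul_eq_mul, Complex.im_mul_ofReal, Complex.exp_ofReal_mul_I_im]
  have h2 : Real.sin (-2 * Real.pi * v * x) = -Real.sin (2 * Real.pi * v * x) := by
    rw [← Real.sin_neg]
    congr 1
    ring
  rw [h2]
  ring

/-- decay of the transforms -/
theorem dec : S_DEC := by
  intro ψ hψ
  obtain ⟨μ, -, -, hμ⟩ := hψ.supp
  obtain ⟨F, hF⟩ := exists_schwartz ψ hψ.smooth ⟨μ, hμ⟩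
  obtain ⟨H, hH⟩ := exists_schwartz (fun v => 2 * Real.pi * v * ψ v)
    (fun n => (contDiff_const.mul contDiff_id).mul (hψ.smooth n))
    ⟨μ, fun x hx => by simp [hμ x hx]⟩
  have hct : ∀ x, ct ψ x = ((𝓕 F : 𝓢(ℝ, ℂ)) x).re := by
    intro x
    rw [SchwartzMap.fourier_coe, re_fourier F ψ hF x]
    rfl
  have hdt : ∀ x, dt ψ x = ((𝓕 H : 𝓢(ℝ, ℂ)) x).im := by
    intro x
    rw [SchwartzMap.fourier_coe, im_fourier H _ hH x]
    rfl
  have hder : ∀ x, HasDerivAt (ct ψ) (dt ψ x) x := by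
    intro x
    have h1 : Integrable (F : ℝ → ℂ) := F.integrable
    have h2 : Integrable (fun v : ℝ => v • F v) := by
      have h3 : (fun v : ℝ => v • F v) = fun v => (1 / (2 * Real.pi)) • H v := by
        funext v
        rw [hF v, hH v]
        have : (Real.pi : ℂ) ≠ 0 := by exact_mod_cast Real.pi_ne_zero
        simp only [Complex.real_smul]
        push_cast
        field_simp
      rw [h3]
      have hHi : Integrable (H : ℝ → ℂ) := H.integrable
      exact hHi.smul (1 / (2 * Real.pi))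
    have h4 := Real.hasDerivAt_fourier h1 h2 x
    have h5 := Complex.reCLM.hasFDerivAt.comp_hasDerivAt x h4
    have h6 : (Complex.reCLM ∘ 𝓕 (F : ℝ → ℂ)) = ct ψ := by
      funext y
      rw [hct y]
      rfl
    rw [h6] at h5
    have h7 : Complex.reCLM (𝓕 (fun v : ℝ => (-2 * Real.pi * Complex.I * v) • F v) x) = dt ψ x := by
      rw [hdt x, SchwartzMap.fourier_coe]
      have h8 : (fun v : ℝ => (-2 * Real.pi * Complex.I * v) • F v) =
          fun v : ℝ => (-Complex.I) • H v := by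
        funext v
        rw [hF v, hH v]
        simp only [smul_eq_mul]
        push_cast
        ring
      rw [h8]
      have h9 : 𝓕 (fun v : ℝ => (-Complex.I) • H v) x = (-Complex.I) • 𝓕 (H : ℝ → ℂ) x := by
        rw [Real.fourier_real_eq, Real.fourier_real_eq, ← integral_smul]
        refine integral_congr_ae (Filter.Eventually.of_forall fun v => ?_)
        simp only
        rw [smul_comm]
      rw [h9]
      simp
    rw [h7] at h5
    exact h5
  refine ⟨hder, ?_, fun n => ?_⟩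
  · have : dt ψ = fun x => ((𝓕 H : 𝓢(ℝ, ℂ)) x).im := funext hdt
    rw [this]
    exact Complex.continuous_im.comp (𝓕 H : 𝓢(ℝ, ℂ)).continuous
  · obtain ⟨K1, hK1, h1⟩ := schwartz_decay (𝓕 F : 𝓢(ℝ, ℂ)) n
    obtain ⟨K2, hK2, h2⟩ := schwartz_decay (𝓕 H : 𝓢(ℝ, ℂ)) n
    refine ⟨max K1 K2, lt_max_of_lt_left hK1, fun x => ⟨?_, ?_⟩⟩
    · refine le_trans ?_ ((h1 x).trans (le_max_left _ _))
      rw [hct x]
      have := Complex.abs_re_le_norm ((𝓕 F : 𝓢(ℝ, ℂ)) x)
      gcongr
    · refine le_trans ?_ ((h2 x).trans (le_max_right _ _))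
      rw [hdt x]
      have := Complex.abs_im_le_norm ((𝓕 H : 𝓢(ℝ, ℂ)) x)
      gcongr

end Pool.Agent.W578.PR
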